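import Pool.Agent.Helper82.EN.Stmts2
import Pool.Agent.Helper82.EN.Basic

set_option autoImplicit false

/-! # ENCODING BY TM, module GL3 -/

namespace Pool.Agent.Helper82.EN

/-- the total machine which follows `M` -/
def gl3_mc {j : ℕ} (M : RTM j) : Mc (Fin j) :=
  ⟨fun q a => match M.next q a with
    | some r => (r.1, r.2.1, r.2.2.1, r.2.2.2)
    | none => (q, a, 0, 0)⟩

theorem gl3_tr {j : ℕ} (M : RTM j) {q : Fin j} {s : Tp} {q' : Fin j} {a : Tp} {m : SignType}
    {b : Fin 5} (h : M.next q s = some (q', a, m, b)) : (gl3_mc M).tr q s = (q', a, m, b) := by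
  simp [gl3_mc, h]

theorem gl3_run_succ' {Q : Type} (M : Mc Q) (c : Cf Q) (t : ℕ) :
    M.run c (t + 1) = M.run (M.step c) t := by
  simp only [Mc.run, Function.iterate_succ_apply]

theorem gl3_prints {j : ℕ} (M : RTM j) : ∀ (w : List (Fin 5)) (q : Fin j) (p : ℤ)
    (T : ℤ → Option (Fin 5)), M.Prints q p T w → ∀ t < w.length,
    w[t]? = some ((gl3_mc M).out ((gl3_mc M).run ⟨q, p, T⟩ t)) := by
  intro w
  induction w with
  | nil =>
    intro q p T _ t ht
    simp at ht
  | cons b w ih =>
    intro q p T h t ht
    obtain ⟨q', a, m, h1, h2⟩ := h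
    have h3 := gl3_tr M h1
    cases t with
    | zero =>
      simp [Mc.out, h3]
    | succ t =>
      have h4 : (gl3_mc M).step ⟨q, p, T⟩ = ⟨q', p + (m : ℤ), Function.update T p a⟩ := by
        simp [Mc.step, h3]
      rw [gl3_run_succ', h4]
      simp only [List.getElem?_cons_succ]
      exact ih q' _ _ h2 t (by simpa using ht)

theorem st_GL3 : ST_GL3 := by
  intro hLB x y k l hl hxy hx hk hM
  obtain ⟨j, hj, M, hP⟩ := hM
  simp only at hj hP
  have hout := gl3_prints M _ _ _ _ hP
  set M' := gl3_mc M with hM'
  set c0 : Cf (Fin j) := ⟨M.start, 0, tape (x ++ (PP l).hard)⟩ with hc0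
  have hend : (M'.run c0 x.length).p = x.length := by
    refine hLB (Fin j) M' M.start l x y hl ?_ hxy hx ?_
    · rw [Fintype.card_fin]
      exact hj.trans hk
    · exact hout
  have hpos : ∀ t ≤ x.length, (M'.run c0 t).p = t := by
    intro t ht
    have h1 := abs_run M' c0 0 t (Nat.zero_le _)
    have h2 := abs_run M' c0 t x.length ht
    rw [hend] at h2
    have h3 : (M'.run c0 0).p = 0 := rfl
    rw [h3] at h1
    rw [abs_le] at h1 h2
    push_cast at h1 h2
    have := h1.2
    have := h2.2
    linarith
  have hread : ∀ (t : ℕ) (ht : t < x.length),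
      (M'.run c0 t).T (M'.run c0 t).p = some x[t] := by
    intro t ht
    rw [hpos t ht.le, run_T_eq M' c0 t (t : ℤ)]
    · simp only [hc0, tape]
      rw [if_neg (by omega), Int.toNat_natCast, List.getElem?_append_left ht,
        List.getElem?_eq_getElem ht]
    · intro u hu
      rw [hpos u (by omega)]
      intro h
      omega
  let F : FST j := ⟨M.start, fun q a => ((M'.tr q (some a)).1, (M'.tr q (some a)).2.2.2)⟩
  have key : ∀ (d t : ℕ), t + d = x.length →
      F.out (M'.run c0 t).q (x.drop t) = y.drop t := by
    intro d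
    induction d with
    | zero =>
      intro t ht
      rw [List.drop_eq_nil_of_le (by omega), List.drop_eq_nil_of_le (by omega)]
      rfl
    | succ d ih =>
      intro t ht
      have htx : t < x.length := by omega
      have hty : t < y.length := by omega
      rw [List.drop_eq_getElem_cons htx, List.drop_eq_getElem_cons hty]
      have h1 := hout t (by rw [List.length_append]; omega)
      rw [List.getElem?_append_left hty, List.getElem?_eq_getElem hty] at h1
      have h2 : y[t] = M'.out (M'.run c0 t) := Option.some.inj h1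
      have h3 := hread t htx
      have h4 : (M'.run c0 (t + 1)).q = (M'.tr (M'.run c0 t).q (some x[t])).1 := by
        rw [run_succ, step_q, h3]
      have h5 : y[t] = (M'.tr (M'.run c0 t).q (some x[t])).2.2.2 := by
        rw [h2, Mc.out, h3]
      have h6 := ih (t + 1) (by omega)
      rw [h4] at h6
      simp only [FST.out, F]
      rw [h5]
      congr 1
  refine ⟨j, hj, F, ?_⟩
  have := key x.length 0 (by omega)
  simpa using this

end Pool.Agent.Helper82.EN
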